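import Pool.Agent.Q87.LinearSofic.Key

/-!
# Amplification of the rank distance to one half
-/

open Module

namespace Pool.Agent.Q87.LinearSofic

universe u

variable {K : Type u} [Field K]

/-- The rank of a linear map. -/
noncomputable def rk {V W : Type u} [AddCommGroup V] [Module K V] [AddCommGroup W] [Module K W]
    (f : V →ₗ[K] W) : ℕ := finrank K (LinearMap.range f)

section
variable {V W : Type u} [AddCommGroup V] [Module K V]
  [FiniteDimensional K V] [AddCommGroup W] [Module K W] [FiniteDimensional K W]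

lemma rk_add_le (f g : V →ₗ[K] W) : rk (f + g) ≤ rk f + rk g := by
  have h : LinearMap.range (f + g) ≤ LinearMap.range f ⊔ LinearMap.range g := by
    rintro _ ⟨x, rfl⟩
    exact Submodule.mem_sup.2 ⟨f x, ⟨x, rfl⟩, g x, ⟨x, rfl⟩, rfl⟩
  exact (Submodule.finrank_mono h).trans (Submodule.finrank_add_le_finrank_add_finrank _ _)

lemma rk_neg (f : V →ₗ[K] W) : rk (-f) = rk f := by
  unfold rk
  rw [LinearMap.range_neg]

lemma rk_sub_comm (f g : V →ₗ[K] W) : rk (f - g) = rk (g - f) := by
  rw [← rk_neg, neg_sub]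

/-- The rank of a map factoring through a space is at most the dimension of that space. -/
lemma rk_comp_le {U : Type u} [AddCommGroup U] [Module K U] [FiniteDimensional K U]
    (f : V →ₗ[K] U) (g : U →ₗ[K] W) : rk (g ∘ₗ f) ≤ finrank K U := by
  have h : LinearMap.range (g ∘ₗ f) ≤ LinearMap.range g := LinearMap.range_comp_le_range f g
  exact (Submodule.finrank_mono h).trans g.finrank_range_le

lemma rk_comp_left {U : Type u} [AddCommGroup U] [Module K U] [FiniteDimensional K U]
    (f : V →ₗ[K] U) (g : U →ₗ[K] W) : rk (g ∘ₗ f) ≤ rk g := by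
  exact Submodule.finrank_mono (LinearMap.range_comp_le_range f g)

lemma rk_comp_right {U : Type u} [AddCommGroup U] [Module K U] [FiniteDimensional K U]
    (f : V →ₗ[K] U) (g : U →ₗ[K] W) : rk (g ∘ₗ f) ≤ rk f := by
  unfold rk
  rw [LinearMap.range_comp]
  exact Submodule.finrank_map_le g _

lemma rk_symm_sub (A B : V ≃ₗ[K] V) :
    rk (A.symm.toLinearMap - B.symm.toLinearMap) ≤ rk (A.toLinearMap - B.toLinearMap) := by
  have h : A.symm.toLinearMap - B.symm.toLinearMap =
      A.symm.toLinearMap ∘ₗ ((B.toLinearMap - A.toLinearMap) ∘ₗ B.symm.toLinearMap) := by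
    ext x
    simp
  rw [h]
  refine (rk_comp_right _ _).trans ((rk_comp_left _ _).trans ?_)
  rw [rk_sub_comm]

lemma rk_step_sub (A A' : V ≃ₗ[K] V) (X X' : W ≃ₗ[K] W) :
    rk ((step A X).toLinearMap - (step A' X').toLinearMap) ≤
      2 * finrank K V * rk (X.toLinearMap - X'.toLinearMap) +
        finrank K W * rk (A.toLinearMap - A'.toLinearMap) := by
  set D : W →ₗ[K] W := X.toLinearMap - X'.toLinearMap with hD
  set Z : V →ₗ[K] V := A.symm.toLinearMap - A'.symm.toLinearMap with hZ
  let P : V × V →ₗ[K] V × V := A.symm.toLinearMap.prodMap LinearMap.id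
  have h : ((step A X).toLinearMap - (step A' X').toLinearMap) =
      (resComp LinearMap.id (LinearMap.range D).subtype) ∘ₗ (resComp P D.rangeRestrict) +
      (resComp (Z.rangeRestrict ∘ₗ LinearMap.fst K V V) X'.toLinearMap) ∘ₗ
        (resComp (LinearMap.inl K V V ∘ₗ (LinearMap.range Z).subtype) LinearMap.id) := by
    apply LinearMap.ext
    intro f
    apply LinearMap.ext
    intro x
    have e1 : (A.symm x.1, x.2) = (A.symm x.1, (0 : V)) + (0, x.2) := by simp
    have e2 : (A'.symm x.1, x.2) = (A'.symm x.1, (0 : V)) + (0, x.2) := by simp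
    have e3 : f (Z x.1, 0) = f (A.symm x.1, 0) - f (A'.symm x.1, 0) := by
      rw [← map_sub]
      simp [hZ]
    have e4 : P x = (A.symm x.1, x.2) := rfl
    have e5 : ∀ y, ((D.rangeRestrict y : LinearMap.range D) : W) = X y - X' y := fun y => rfl
    have e6 : LinearMap.inl K V V ((Z.rangeRestrict x.1 : LinearMap.range Z) : V) =
      (Z x.1, 0) := rfl
    simp only [LinearMap.sub_apply, LinearEquiv.coe_coe, step_apply, LinearMap.add_apply,
      LinearMap.comp_apply, resComp_apply, LinearMap.id_apply, Submodule.subtype_apply,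
      LinearMap.fst_apply, e4, e5, e6, e3, map_sub]
    rw [e1, e2]
    simp only [map_add, e5, e6, e3, map_sub]
    abel
  rw [h]
  refine (rk_add_le _ _).trans (add_le_add ?_ ?_)
  · refine (rk_comp_le _ _).trans ?_
    rw [Module.finrank_linearMap, Module.finrank_prod]
    unfold rk
    linarith
  · refine (rk_comp_le _ _).trans ?_
    rw [Module.finrank_linearMap, mul_comm]
    exact Nat.mul_le_mul_left _ (rk_symm_sub A A')

/-- Normalised dimension of the fixed space. -/
noncomputable def kap {V : Type u} [AddCommGroup V] [Module K V] (A : V →ₗ[K] V) : ℝ :=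
  (fx A : ℝ) / (finrank K V : ℝ)

/-- Normalised rank distance. -/
noncomputable def dst {V : Type u} [AddCommGroup V] [Module K V] (A B : V →ₗ[K] V) : ℝ :=
  (rk (A - B) : ℝ) / (finrank K V : ℝ)

lemma kap_add_dst (hV : 0 < finrank K V) (A : V →ₗ[K] V) : kap A + dst A 1 = 1 := by
  have h : fx A + rk (A - 1) = finrank K V := by
    rw [add_comm]
    exact (A - 1).finrank_range_add_finrank_ker
  have hV' : (0 : ℝ) < finrank K V := by exact_mod_cast hV
  unfold kap dst
  rw [← add_div, div_eq_one_iff_eq hV'.ne']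
  exact_mod_cast h

lemma dst_mul_left (A B : V ≃ₗ[K] V) :
    dst A.toLinearMap B.toLinearMap = dst (B⁻¹ * A).toLinearMap 1 := by
  unfold dst
  have h : rk (A.toLinearMap - B.toLinearMap) = rk ((B⁻¹ * A).toLinearMap - 1) := by
    apply le_antisymm
    · have : A.toLinearMap - B.toLinearMap = B.toLinearMap ∘ₗ
          ((B⁻¹ * A).toLinearMap - 1) := by
        ext x
        simp
      rw [this]
      exact rk_comp_right _ _
    · have : (B⁻¹ * A).toLinearMap - 1 =
          (B⁻¹).toLinearMap ∘ₗ (A.toLinearMap - B.toLinearMap) := by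
        ext x
        simp
      rw [this]
      exact rk_comp_right _ _
  rw [h]

/-- Excess of the fixed space over one half. -/
noncomputable def exc {V : Type u} [AddCommGroup V] [Module K V] (A : V →ₗ[K] V) : ℝ :=
  max (kap A - 1 / 2) 0

lemma exc_step (hV : 0 < finrank K V) (hW : 0 < finrank K W) (A : V ≃ₗ[K] V)
    (X : W ≃ₗ[K] W) :
    exc (step A X).toLinearMap ≤ (1 + kap A.toLinearMap) / 2 * exc X.toLinearMap := by
  obtain ⟨e, c, v, h1, h2, h3⟩ := key_nat A X
  have hV' : (0 : ℝ) < (finrank K V : ℝ) := by exact_mod_cast hV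
  have hW' : (0 : ℝ) < (finrank K W : ℝ) := by exact_mod_cast hW
  have hk : 0 ≤ kap A.toLinearMap := by unfold kap; positivity
  have hex : 0 ≤ exc X.toLinearMap := le_max_right _ _
  refine max_le ?_ (by positivity)
  have h1' : (e : ℝ) + 2 * c + v ≤ (finrank K V : ℝ) := by exact_mod_cast h1
  have h2' : (e : ℝ) ≤ (fx A.toLinearMap : ℝ) := by exact_mod_cast h2
  have h3' : (fx (step A X).toLinearMap : ℝ) + v * (fx X.toLinearMap : ℝ) ≤
      e * (fx X.toLinearMap : ℝ) + c * (finrank K W : ℝ) + v * (finrank K W : ℝ) +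
        (finrank K V : ℝ) * (fx X.toLinearMap : ℝ) := by
    exact_mod_cast h3
  have hdim : (finrank K ((V × V) →ₗ[K] W) : ℝ) = 2 * (finrank K V : ℝ) * (finrank K W : ℝ) := by
    rw [Module.finrank_linearMap, Module.finrank_prod]
    push_cast
    ring
  have e1 : kap (step A X).toLinearMap = (fx (step A X).toLinearMap : ℝ) /
      (2 * (finrank K V : ℝ) * (finrank K W : ℝ)) := by
    unfold kap; rw [hdim]
  have e2 : kap A.toLinearMap = (fx A.toLinearMap : ℝ) / (finrank K V : ℝ) := rfl
  have e3 : exc X.toLinearMap =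
    max ((fx X.toLinearMap : ℝ) / (finrank K W : ℝ) - 1 / 2) 0 := rfl
  rw [e1, e2, e3]
  generalize (finrank K V : ℝ) = n at *
  generalize (finrank K W : ℝ) = w at *
  generalize (fx (step A X).toLinearMap : ℝ) = F at *
  generalize (fx X.toLinearMap : ℝ) = k at *
  generalize (fx A.toLinearMap : ℝ) = a at *
  have e4 : max (k - w / 2) 0 = w * max (k / w - 1 / 2) 0 := by
    rw [mul_max_of_nonneg _ _ hW'.le, mul_zero]
    congr 1
    field_simp
  have m1 : k - w / 2 ≤ max (k - w / 2) 0 := le_max_left _ _
  have m2 : 0 ≤ max (k - w / 2) 0 := le_max_right _ _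
  have hc0 : (0 : ℝ) ≤ c := Nat.cast_nonneg _
  have hv0 : (0 : ℝ) ≤ v := Nat.cast_nonneg _
  have he0 : (0 : ℝ) ≤ e := Nat.cast_nonneg _
  have key : F - n * w ≤ (n + a) * max (k - w / 2) 0 := by
    have s1 : F - n * w ≤ (n + e - v) * (k - w / 2) := by nlinarith
    have s2 : (n + e - v) * (k - w / 2) ≤ (n + e - v) * max (k - w / 2) 0 := by
      apply mul_le_mul_of_nonneg_left m1
      linarith
    have s3 : (n + e - v) * max (k - w / 2) 0 ≤ (n + a) * max (k - w / 2) 0 := by
      apply mul_le_mul_of_nonneg_right _ m2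
      linarith
    linarith
  have e5 : F / (2 * n * w) - 1 / 2 = (F - n * w) / (2 * n * w) := by
    field_simp
  have e6 : (1 + a / n) / 2 * max (k / w - 1 / 2) 0 =
      ((n + a) * (w * max (k / w - 1 / 2) 0)) / (2 * n * w) := by
    field_simp
  rw [e5, e6, ← e4]
  exact div_le_div_of_nonneg_right key (by positivity)

end

lemma step_mul {V W : Type u} [AddCommGroup V] [Module K V] [AddCommGroup W] [Module K W]
    (A A' : V ≃ₗ[K] V) (X X' : W ≃ₗ[K] W) :
    step (A * A') (X * X') = step A X * step A' X' := by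
  apply LinearEquiv.ext
  intro f
  apply LinearMap.ext
  intro x
  rfl

/-- Iterated amplification. -/
lemma exists_amplify (V : Type u) [AddCommGroup V] [Module K V] [FiniteDimensional K V]
    (hV : 0 < finrank K V) (k : ℕ) :
    ∃ (W : Type u) (_ : AddCommGroup W) (_ : Module K W) (_ : FiniteDimensional K W)
      (Ψ : (V ≃ₗ[K] V) → (W ≃ₗ[K] W)), 0 < finrank K W ∧ (∀ A B, Ψ (A * B) = Ψ A * Ψ B) ∧
      (∀ A B, dst (Ψ A).toLinearMap (Ψ B).toLinearMap ≤
        k * dst A.toLinearMap B.toLinearMap) ∧
      ∀ A, exc (Ψ A).toLinearMap ≤ ((1 + kap A.toLinearMap) / 2) ^ k * (1 / 2) := by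
  induction k with
  | zero =>
    refine ⟨K, inferInstance, inferInstance, inferInstance, fun _ => 1, ?_, ?_, ?_, ?_⟩
    · simp
    · simp
    · intro A B
      show dst (1 : K ≃ₗ[K] K).toLinearMap (1 : K ≃ₗ[K] K).toLinearMap ≤ _
      unfold dst rk
      rw [sub_self, LinearMap.range_zero, finrank_bot]
      simp
    · intro A
      have h : kap (1 : K ≃ₗ[K] K).toLinearMap ≤ 1 := by
        unfold kap fx
        simp only [Module.finrank_self]
        have : finrank K (LinearMap.ker ((1 : K ≃ₗ[K] K).toLinearMap - 1)) ≤ finrank K K :=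
          Submodule.finrank_le _
        rw [Module.finrank_self] at this
        simpa using this
      rw [pow_zero, one_mul]
      exact max_le (by linarith) (by norm_num)
  | succ k ih =>
    obtain ⟨W, i1, i2, i3, Ψ, h0, h1, h2, h3⟩ := ih
    refine ⟨(V × V) →ₗ[K] W, inferInstance, inferInstance, inferInstance,
      fun A => step A (Ψ A), ?_, ?_, ?_, ?_⟩
    · rw [Module.finrank_linearMap, Module.finrank_prod]
      positivity
    · intro A B
      show step (A * B) (Ψ (A * B)) = step A (Ψ A) * step B (Ψ B)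
      rw [h1, step_mul]
    · intro A B
      have hV' : (0 : ℝ) < finrank K V := by exact_mod_cast hV
      have hW' : (0 : ℝ) < finrank K W := by exact_mod_cast h0
      have hr := rk_step_sub A B (Ψ A) (Ψ B)
      have hr' : (rk ((step A (Ψ A)).toLinearMap - (step B (Ψ B)).toLinearMap) : ℝ) ≤
          2 * finrank K V * rk ((Ψ A).toLinearMap - (Ψ B).toLinearMap) +
          finrank K W * rk (A.toLinearMap - B.toLinearMap) := by exact_mod_cast hr
      have hdim : (finrank K ((V × V) →ₗ[K] W) : ℝ) = 2 * finrank K V * finrank K W := by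
        rw [Module.finrank_linearMap, Module.finrank_prod]
        push_cast
        ring
      have h2' := h2 A B
      have hd : 0 ≤ dst A.toLinearMap B.toLinearMap := by unfold dst; positivity
      have hstep : dst (step A (Ψ A)).toLinearMap (step B (Ψ B)).toLinearMap ≤
          dst (Ψ A).toLinearMap (Ψ B).toLinearMap + dst A.toLinearMap B.toLinearMap / 2 := by
        unfold dst
        rw [hdim, div_le_iff₀ (by positivity)]
        refine hr'.trans (le_of_eq ?_)
        field_simp
      push_cast
      linarith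
    · intro A
      have hk : 0 ≤ kap A.toLinearMap := by unfold kap; positivity
      calc exc (step A (Ψ A)).toLinearMap
          ≤ (1 + kap A.toLinearMap) / 2 * exc (Ψ A).toLinearMap := exc_step hV h0 A (Ψ A)
        _ ≤ (1 + kap A.toLinearMap) / 2 *
            (((1 + kap A.toLinearMap) / 2) ^ k * (1 / 2)) :=
          mul_le_mul_of_nonneg_left (h3 A) (by positivity)
        _ = _ := by ring

end Pool.Agent.Q87.LinearSofic
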