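import Pool.Agent.Q87.LinearSofic.Amplify

/-!
# Fixed spaces of elementary abelian two-groups, on the average
-/

open Module

namespace Pool.Agent.Q87.LinearSofic

universe u

variable {K : Type u} [Field K] {V : Type u} [AddCommGroup V] [Module K V]
  [FiniteDimensional K V]

lemma finrank_restrict (f : V →ₗ[K] V) (S T : Submodule K V) (h : ∀ v ∈ S, f v ∈ T) :
    finrank K S ≤ finrank K T + finrank K (S ⊓ LinearMap.ker f : Submodule K V) := by
  have h1 := (f.domRestrict S).finrank_range_add_finrank_ker
  have h2 : finrank K (LinearMap.ker (f.domRestrict S)) =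
      finrank K (S ⊓ LinearMap.ker f : Submodule K V) := by
    rw [← Submodule.map_comap_subtype, ← LinearMap.ker_comp]
    exact (Submodule.finrank_map_subtype_eq _ _).symm
  have h3 : LinearMap.range (f.domRestrict S) ≤ T := by
    rintro _ ⟨⟨x, hx⟩, rfl⟩
    exact h x hx
  have h4 := Submodule.finrank_mono h3
  omega

lemma finrank_disj (S T R : Submodule K V) (h : Disjoint S T) (hS : S ≤ R) (hT : T ≤ R) :
    finrank K S + finrank K T ≤ finrank K R := by
  have := Submodule.finrank_mono (sup_le hS hT)
  rw [← Submodule.finrank_sup_add_finrank_inf_eq, h.eq_bot, finrank_bot, add_zero]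
  exact this

/-- On an exactly represented subspace, the average fixed space of an elementary abelian
2-group has at least half the dimension. -/
lemma average {G : Type} [Group G] [Fintype G] (hG : ∀ g : G, g * g = 1)
    (ρ : G → V →ₗ[K] V) : ∀ (d : ℕ) (S : Submodule K V), finrank K S = d →
    (∀ g, ∀ v ∈ S, ρ g v ∈ S) → (∀ g h, ∀ v ∈ S, ρ g (ρ h v) = ρ (g * h) v) →
    (∀ v ∈ S, ρ 1 v = v) →
    Fintype.card G * finrank K S ≤
      2 * ∑ g, finrank K (S ⊓ LinearMap.ker (ρ g - 1) : Submodule K V) := by
  intro d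
  induction d using Nat.strong_induction_on with
  | _ d ih =>
  intro S hd hinv hmul hone
  have hsq : ∀ g, ∀ v ∈ S, ρ g (ρ g v) = v := by
    intro g v hv
    rw [hmul g g v hv, hG, hone v hv]
  by_cases h2 : (2 : K) = 0
  · rw [Finset.mul_sum, ← smul_eq_mul, ← Finset.card_univ, ← Finset.sum_const]
    apply Finset.sum_le_sum
    intro g _
    have := finrank_restrict (ρ g - 1) S (S ⊓ LinearMap.ker (ρ g - 1)) ?_
    · omega
    · intro v hv
      refine Submodule.mem_inf.2 ⟨S.sub_mem (hinv g v hv) hv, ?_⟩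
      rw [LinearMap.mem_ker]
      simp only [LinearMap.sub_apply, Module.End.one_apply, map_sub, hsq g v hv]
      have : v - ρ g v - (ρ g v - v) = (2 : K) • (v - ρ g v) := by
        rw [two_smul]; abel
      rw [this, h2, zero_smul]
  by_cases hB : ∃ g₀, ¬ S ≤ LinearMap.ker (ρ g₀ - 1) ∧ ¬ S ≤ LinearMap.ker (ρ g₀ + 1)
  · obtain ⟨g₀, hg1, hg2⟩ := hB
    set P : Submodule K V := S ⊓ LinearMap.ker (ρ g₀ - 1) with hP
    set Q : Submodule K V := S ⊓ LinearMap.ker (ρ g₀ + 1) with hQ
    have memP : ∀ v, v ∈ P ↔ v ∈ S ∧ ρ g₀ v = v := by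
      intro v
      rw [hP, Submodule.mem_inf, LinearMap.mem_ker, LinearMap.sub_apply, Module.End.one_apply,
        sub_eq_zero]
    have memQ : ∀ v, v ∈ Q ↔ v ∈ S ∧ ρ g₀ v = -v := by
      intro v
      rw [hQ, Submodule.mem_inf, LinearMap.mem_ker, LinearMap.add_apply, Module.End.one_apply,
        add_eq_zero_iff_eq_neg]
    have hPlt : P < S := lt_of_le_of_ne inf_le_left (fun h => hg1 (h ▸ inf_le_right))
    have hQlt : Q < S := lt_of_le_of_ne inf_le_left (fun h => hg2 (h ▸ inf_le_right))
    have hcomm : ∀ g, g * g₀ = g₀ * g := by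
      intro g
      have h1 := hG (g * g₀)
      have h3 := hG g
      have h4 := hG g₀
      calc g * g₀ = (g₀ * g₀) * (g * g₀) * (g * g) := by rw [h3, h4]; simp
        _ = g₀ * ((g₀ * g) * (g₀ * g)) * g := by simp only [mul_assoc]
        _ = g₀ * g := by rw [hG (g₀ * g)]; simp
    have hPd : finrank K P < d := hd ▸ Submodule.finrank_lt_finrank_of_lt hPlt
    have hQd : finrank K Q < d := hd ▸ Submodule.finrank_lt_finrank_of_lt hQlt
    have hPinv : ∀ g, ∀ v ∈ P, ρ g v ∈ P := by
      intro g v hv
      rw [memP] at hv ⊢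
      refine ⟨hinv g v hv.1, ?_⟩
      rw [hmul _ _ _ hv.1, ← hcomm, ← hmul _ _ _ hv.1, hv.2]
    have hQinv : ∀ g, ∀ v ∈ Q, ρ g v ∈ Q := by
      intro g v hv
      rw [memQ] at hv ⊢
      refine ⟨hinv g v hv.1, ?_⟩
      rw [hmul _ _ _ hv.1, ← hcomm, ← hmul _ _ _ hv.1, hv.2, map_neg]
    have i1 := ih _ hPd P rfl hPinv (fun g h v hv => hmul g h v hv.1) (fun v hv => hone v hv.1)
    have i2 := ih _ hQd Q rfl hQinv (fun g h v hv => hmul g h v hv.1) (fun v hv => hone v hv.1)
    have hdisj : Disjoint P Q := by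
      rw [disjoint_iff, eq_bot_iff]
      intro v hv
      have hv1 := ((memP v).1 hv.1).2
      have hv2 := ((memQ v).1 hv.2).2
      rw [Submodule.mem_bot]
      have : (2 : K) • v = 0 := by
        rw [two_smul]
        nth_rewrite 1 [← hv1]
        rw [hv2]; simp
      exact (smul_eq_zero.1 this).resolve_left h2
    have hsup : S ≤ P ⊔ Q := by
      intro v hv
      have e : v = (2 : K)⁻¹ • (v + ρ g₀ v) + (2 : K)⁻¹ • (v - ρ g₀ v) := by
        rw [← smul_add, add_add_sub_cancel, ← two_smul K v, smul_smul, inv_mul_cancel₀ h2,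
          one_smul]
      rw [e]
      apply Submodule.add_mem_sup
      · rw [memP]
        refine ⟨S.smul_mem _ (S.add_mem hv (hinv _ _ hv)), ?_⟩
        rw [map_smul, map_add, hsq g₀ v hv, add_comm]
      · rw [memQ]
        refine ⟨S.smul_mem _ (S.sub_mem hv (hinv _ _ hv)), ?_⟩
        rw [map_smul, map_sub, hsq g₀ v hv, ← smul_neg, neg_sub]
    have hS : finrank K S ≤ finrank K P + finrank K Q :=
      (Submodule.finrank_mono hsup).trans (Submodule.finrank_add_le_finrank_add_finrank _ _)
    have hsum : ∑ g, finrank K (P ⊓ LinearMap.ker (ρ g - 1) : Submodule K V) +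
        ∑ g, finrank K (Q ⊓ LinearMap.ker (ρ g - 1) : Submodule K V) ≤
        ∑ g, finrank K (S ⊓ LinearMap.ker (ρ g - 1) : Submodule K V) := by
      rw [← Finset.sum_add_distrib]
      apply Finset.sum_le_sum
      intro g _
      apply finrank_disj
      · exact hdisj.mono inf_le_left inf_le_left
      · exact inf_le_inf_right _ hPlt.le
      · exact inf_le_inf_right _ hQlt.le
    calc Fintype.card G * finrank K S ≤ Fintype.card G * (finrank K P + finrank K Q) :=
          Nat.mul_le_mul_left _ hS
      _ = Fintype.card G * finrank K P + Fintype.card G * finrank K Q := by ring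
      _ ≤ _ := by omega
  · push Not at hB
    have key : ∃ g₀ : G, ∀ g, finrank K S ≤
        finrank K (S ⊓ LinearMap.ker (ρ g - 1) : Submodule K V) +
        finrank K (S ⊓ LinearMap.ker (ρ (g₀ * g) - 1) : Submodule K V) := by
      by_cases hall : ∀ g, S ≤ LinearMap.ker (ρ g - 1)
      · refine ⟨1, fun g => ?_⟩
        rw [inf_eq_left.2 (hall g)]
        omega
      · push Not at hall
        obtain ⟨g₀, hg₀⟩ := hall
        have hneg := hB g₀ hg₀
        refine ⟨g₀, fun g => ?_⟩
        by_cases hg : S ≤ LinearMap.ker (ρ g - 1)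
        · rw [inf_eq_left.2 hg]
          omega
        · have hg' := hB g hg
          have : S ≤ LinearMap.ker (ρ (g₀ * g) - 1) := by
            intro v hv
            have e1 : ρ g v = -v := by
              have := hg' hv
              rwa [LinearMap.mem_ker, LinearMap.add_apply, Module.End.one_apply,
                add_eq_zero_iff_eq_neg] at this
            have e2 : ρ g₀ v = -v := by
              have := hneg hv
              rwa [LinearMap.mem_ker, LinearMap.add_apply, Module.End.one_apply,
                add_eq_zero_iff_eq_neg] at this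
            rw [LinearMap.mem_ker, LinearMap.sub_apply, Module.End.one_apply,
              ← hmul _ _ _ hv, e1, map_neg, e2, neg_neg, sub_self]
          rw [inf_eq_left.2 this]
          omega
    obtain ⟨g₀, hg₀⟩ := key
    have hbij : ∑ g, finrank K (S ⊓ LinearMap.ker (ρ (g₀ * g) - 1) : Submodule K V) =
        ∑ g, finrank K (S ⊓ LinearMap.ker (ρ g - 1) : Submodule K V) :=
      Fintype.sum_equiv (Equiv.mulLeft g₀) _ _ (fun g => rfl)
    rw [two_mul]
    nth_rewrite 2 [← hbij]
    rw [← Finset.sum_add_distrib, ← smul_eq_mul, ← Finset.card_univ, ← Finset.sum_const]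
    exact Finset.sum_le_sum fun g _ => hg₀ g

lemma codim_inf {ι : Type} (s : Finset ι) (S : ι → Submodule K V) (c : ℝ) (hc : 0 ≤ c)
    (h : ∀ i ∈ s, (finrank K V : ℝ) ≤ finrank K (S i) + c) :
    (finrank K V : ℝ) ≤ finrank K (s.inf S : Submodule K V) + s.card * c := by
  classical
  induction s using Finset.induction_on with
  | empty => rw [Finset.inf_empty, finrank_top]; simp
  | insert i s hi ih =>
    rw [Finset.inf_insert, Finset.card_insert_of_notMem hi]
    have h1 := h i (Finset.mem_insert_self _ _)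
    have h2 := ih (fun j hj => h j (Finset.mem_insert_of_mem hj))
    have h3 := Submodule.finrank_sup_add_finrank_inf_eq (S i) (s.inf S)
    have h4 : finrank K (S i ⊔ s.inf S : Submodule K V) ≤ finrank K V := Submodule.finrank_le _
    have h3' : (finrank K (S i ⊔ s.inf S : Submodule K V) : ℝ) +
      finrank K (S i ⊓ s.inf S : Submodule K V) = finrank K (S i) +
        finrank K (s.inf S : Submodule K V) := by exact_mod_cast h3
    have h4' : (finrank K (S i ⊔ s.inf S : Submodule K V) : ℝ) ≤ finrank K V := by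
      exact_mod_cast h4
    push_cast
    linarith

/-- Almost representations of a finite group are exact on a large invariant subspace. -/
lemma exists_exact {G : Type} [Group G] [Fintype G] (φ : G → V ≃ₗ[K] V) (c : ℝ) (hc : 0 ≤ c)
    (h : ∀ g h, (rk ((φ g * φ h).toLinearMap - (φ (g * h)).toLinearMap) : ℝ) ≤ c) :
    ∃ U : Submodule K V, (∀ g, ∀ v ∈ U, φ g v ∈ U) ∧
      (∀ g h, ∀ v ∈ U, φ g (φ h v) = φ (g * h) v) ∧ (∀ v ∈ U, φ 1 v = v) ∧
      (finrank K V : ℝ) ≤ finrank K U + (Fintype.card G : ℝ) ^ 3 * c := by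
  classical
  let f : G × G × G → V →ₗ[K] V := fun p =>
    ((φ p.1 * φ p.2.1).toLinearMap - (φ (p.1 * p.2.1)).toLinearMap) ∘ₗ (φ p.2.2).toLinearMap
  let U : Submodule K V := Finset.univ.inf fun p => LinearMap.ker (f p)
  have memU : ∀ v, v ∈ U ↔ ∀ g h l, φ g (φ h (φ l v)) = φ (g * h) (φ l v) := by
    intro v
    have e : v ∈ U ↔ ∀ p, f p v = 0 := by
      simp only [U, Submodule.mem_finsetInf, Finset.mem_univ, true_implies, LinearMap.mem_ker]
    rw [e]
    constructor
    · intro h g k l
      exact sub_eq_zero.1 (h (g, k, l))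
    · rintro h ⟨g, k, l⟩
      exact sub_eq_zero.2 (h g k l)
  have hone : ∀ v ∈ U, φ 1 v = v := by
    intro v hv
    have := (memU v).1 hv 1 1 1
    rw [mul_one] at this
    exact (φ 1).injective ((φ 1).injective this)
  have hmul : ∀ g h, ∀ v ∈ U, φ g (φ h v) = φ (g * h) v := by
    intro g h v hv
    have := (memU v).1 hv g h 1
    rwa [hone v hv] at this
  refine ⟨U, ?_, hmul, hone, ?_⟩
  · intro g v hv
    rw [memU]
    intro a b l
    rw [hmul l g v hv]
    exact (memU v).1 hv a b (l * g)
  · have := codim_inf Finset.univ (fun p => LinearMap.ker (f p)) c hc ?_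
    · refine this.trans (le_of_eq ?_)
      rw [Finset.card_univ, Fintype.card_prod, Fintype.card_prod]
      push_cast
      ring
    · rintro ⟨g, k, l⟩ -
      have h1 := (f (g, k, l)).finrank_range_add_finrank_ker
      have h2 : rk (f (g, k, l)) ≤ rk ((φ g * φ k).toLinearMap - (φ (g * k)).toLinearMap) :=
        rk_comp_left _ _
      have h3 : (finrank K V : ℝ) = rk (f (g, k, l)) + finrank K (LinearMap.ker (f (g, k, l))) := by
        rw [← h1]; push_cast; rfl
      have h4 : (rk (f (g, k, l)) : ℝ) ≤ c := by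
        refine le_trans ?_ (h g k)
        exact_mod_cast h2
      linarith

end Pool.Agent.Q87.LinearSofic
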