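import Mathlib

/-!
# The key inequality for fixed spaces of tensor products
-/

open Module

namespace Pool.Agent.Q87.LinearSofic

universe u

variable {K : Type u} [Field K] {V W : Type u} [AddCommGroup V] [Module K V]
  [FiniteDimensional K V] [AddCommGroup W] [Module K W] [FiniteDimensional K W]

/-- Dimension of the fixed space. -/
noncomputable def fx {V : Type u} [AddCommGroup V] [Module K V] (A : V →ₗ[K] V) : ℕ :=
  finrank K (LinearMap.ker (A - 1))

/-- A retraction onto a subspace. -/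
lemma exists_retraction (S : Submodule K W) : ∃ p : W →ₗ[K] S, ∀ x : S, p x = x := by
  obtain ⟨p, hp⟩ := LinearMap.exists_leftInverse_of_injective S.subtype S.ker_subtype
  exact ⟨p, fun x => by simpa using congrArg (fun g => g x) hp⟩

/-- Restriction of a linear map to a subspace, followed by a linear map. -/
def resComp {U W' : Type u} [AddCommGroup U] [Module K U] [AddCommGroup W'] [Module K W']
    (i : U →ₗ[K] V) (p : W →ₗ[K] W') : (V →ₗ[K] W) →ₗ[K] (U →ₗ[K] W') where
  toFun f := p ∘ₗ f ∘ₗ i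
  map_add' f g := by ext; simp
  map_smul' c f := by ext; simp

omit [FiniteDimensional K V] [FiniteDimensional K W] in
@[simp] lemma resComp_apply {U W' : Type u} [AddCommGroup U] [Module K U] [AddCommGroup W']
    [Module K W'] (i : U →ₗ[K] V) (p : W →ₗ[K] W') (f : V →ₗ[K] W) (x : U) :
    resComp i p f x = p (f (i x)) := rfl

/-- Subspaces attached to an endomorphism `N`. -/
lemma exists_subspaces (N : V →ₗ[K] V) : ∃ (E C U : Submodule K V) (m : ℕ),
    (∀ x ∈ E, N x = 0) ∧ (∀ x, ∃ a ∈ E, ∃ b ∈ C, ∃ z, x = a + b + N z) ∧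
    (∀ x, (N ^ m) x ∈ U) ∧ (∀ x ∈ U, ∃ y ∈ U, N y = x) ∧
    finrank K E + 2 * finrank K C + finrank K U ≤ finrank K V ∧
    finrank K E ≤ finrank K (LinearMap.ker N) := by
  obtain ⟨m, hm, hm1⟩ := (N.eventually_isCompl_ker_pow_range_pow.and
    (Filter.eventually_ge_atTop 1)).exists
  have hkm : LinearMap.ker N ≤ LinearMap.ker (N ^ m) := by
    intro x hx
    rw [LinearMap.mem_ker] at hx ⊢
    obtain ⟨k, rfl⟩ : ∃ k, m = k + 1 := ⟨m - 1, by omega⟩
    rw [pow_succ, Module.End.mul_apply, hx, map_zero]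
  set P : Submodule K V := LinearMap.ker N ⊓ LinearMap.range N with hP
  obtain ⟨Q, hQ⟩ := Submodule.exists_isCompl P
  set E : Submodule K V := Q ⊓ LinearMap.ker N with hE
  have hEP : E ⊔ P = LinearMap.ker N := by
    have hPN : P ≤ LinearMap.ker N := inf_le_left
    rw [hE, sup_comm, ← sup_inf_assoc_of_le _ hPN, hQ.sup_eq_top, top_inf_eq]
  have hEdP : Disjoint E P := by
    rw [disjoint_iff, eq_bot_iff]
    intro x hx
    have : x ∈ P ⊓ Q := ⟨hx.2, hx.1.1⟩
    rwa [hQ.inf_eq_bot] at this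
  have hER : Disjoint E (LinearMap.range N) := by
    rw [disjoint_iff, eq_bot_iff]
    intro x hx
    have : x ∈ E ⊓ P := ⟨hx.1, hx.1.2, hx.2⟩
    rwa [hEdP.eq_bot] at this
  obtain ⟨C, hC⟩ := Submodule.exists_isCompl (E ⊔ LinearMap.range N)
  refine ⟨E, C, LinearMap.range (N ^ m), m, fun x hx => hx.2, ?_, fun x => ⟨x, rfl⟩, ?_, ?_, ?_⟩
  · intro x
    have hx : x ∈ (E ⊔ LinearMap.range N) ⊔ C := by rw [hC.sup_eq_top]; trivial
    obtain ⟨y, hy, b, hb, rfl⟩ := Submodule.mem_sup.1 hx
    obtain ⟨a, ha, _, ⟨z, rfl⟩, rfl⟩ := Submodule.mem_sup.1 hy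
    exact ⟨a, ha, b, hb, z, by abel⟩
  · rintro _ ⟨x, rfl⟩
    have hx : x ∈ LinearMap.ker (N ^ m) ⊔ LinearMap.range (N ^ m) := by
      rw [hm.sup_eq_top]; trivial
    obtain ⟨a, ha, _, ⟨y, rfl⟩, rfl⟩ := Submodule.mem_sup.1 hx
    refine ⟨(N ^ m) ((N ^ (m - 1)) y), ⟨_, rfl⟩, ?_⟩
    rw [map_add, LinearMap.mem_ker.1 ha, zero_add, ← Module.End.mul_apply,
      ← Module.End.mul_apply, ← Module.End.mul_apply, ← pow_add, ← pow_succ', ← pow_add]
    congr 2
    omega
  · have h1 : finrank K (LinearMap.range N) + finrank K (LinearMap.ker N) = finrank K V :=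
      N.finrank_range_add_finrank_ker
    have h2 : finrank K E + finrank K P = finrank K (LinearMap.ker N) := by
      rw [← hEP, ← Submodule.finrank_sup_add_finrank_inf_eq, hEdP.eq_bot, finrank_bot, add_zero]
    have h3 : finrank K E + finrank K (LinearMap.range N) =
        finrank K (E ⊔ LinearMap.range N : Submodule K V) := by
      rw [← Submodule.finrank_sup_add_finrank_inf_eq, hER.eq_bot, finrank_bot, add_zero]
    have h4 : finrank K (E ⊔ LinearMap.range N : Submodule K V) + finrank K C = finrank K V :=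
      Submodule.finrank_add_eq_of_isCompl hC
    have h5 : finrank K P + finrank K (LinearMap.range (N ^ m)) ≤
        finrank K (LinearMap.range N) := by
      have hd : Disjoint P (LinearMap.range (N ^ m)) :=
        hm.disjoint.mono_left (inf_le_left.trans hkm)
      have hle : P ⊔ LinearMap.range (N ^ m) ≤ LinearMap.range N := by
        refine sup_le inf_le_right ?_
        rintro _ ⟨x, rfl⟩
        obtain ⟨k, rfl⟩ : ∃ k, m = k + 1 := ⟨m - 1, by omega⟩
        rw [pow_succ', Module.End.mul_apply]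
        exact ⟨_, rfl⟩
      have := Submodule.finrank_mono hle
      rw [← Submodule.finrank_sup_add_finrank_inf_eq, hd.eq_bot, finrank_bot, add_zero]
      exact this
    omega
  · exact Submodule.finrank_mono inf_le_right

/-- An intertwiner vanishing on all three subspaces is zero. -/
lemma key_inj (N : V →ₗ[K] V) (M : W →ₗ[K] W) (E C U : Submodule K V) (m : ℕ)
    (h2 : ∀ x, ∃ a ∈ E, ∃ b ∈ C, ∃ z, x = a + b + N z)
    (h3 : ∀ x, (N ^ m) x ∈ U) (f : V →ₗ[K] W) (hf : ∀ x, f (N x) = M (f x))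
    (hE : ∀ x ∈ E, f x = 0) (hC : ∀ x ∈ C, f x = 0) (hU : ∀ x ∈ U, f x = 0) : f = 0 := by
  have key : ∀ j : ℕ, ∀ x, ∃ y, f x = f ((N ^ j) y) := by
    intro j
    induction j with
    | zero => exact fun x => ⟨x, by simp⟩
    | succ j ih =>
      intro x
      obtain ⟨a, ha, b, hb, z, rfl⟩ := h2 x
      obtain ⟨y, hy⟩ := ih z
      refine ⟨y, ?_⟩
      rw [map_add, map_add, hE a ha, hC b hb, zero_add, zero_add, hf, hy, ← hf, pow_succ',
        Module.End.mul_apply]
  ext x
  obtain ⟨y, hy⟩ := key m x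
  rw [hy, hU _ (h3 y)]
  rfl

/-- The operator on `Hom(V × V, W)` attached to `A` on `V` and `X` on `W`. -/
def step {V W : Type u} [AddCommGroup V] [Module K V] [AddCommGroup W] [Module K W]
    (A : V ≃ₗ[K] V) (X : W ≃ₗ[K] W) : ((V × V) →ₗ[K] W) ≃ₗ[K] ((V × V) →ₗ[K] W) :=
  LinearEquiv.arrowCongr (A.prodCongr (LinearEquiv.refl K V)) X

lemma step_apply (A : V ≃ₗ[K] V) (X : W ≃ₗ[K] W) (f : (V × V) →ₗ[K] W) (x : V × V) :
    step A X f x = X (f (A.symm x.1, x.2)) := rfl

lemma key_nat (A : V ≃ₗ[K] V) (X : W ≃ₗ[K] W) : ∃ e c v : ℕ,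
    e + 2 * c + v ≤ finrank K V ∧ e ≤ fx (A : V →ₗ[K] V) ∧
    fx (step A X : ((V × V) →ₗ[K] W) →ₗ[K] ((V × V) →ₗ[K] W)) + v * fx (X : W →ₗ[K] W) ≤
      e * fx (X : W →ₗ[K] W) + c * finrank K W + v * finrank K W
        + finrank K V * fx (X : W →ₗ[K] W) := by
  obtain ⟨E, C, U, m, h1, h2, h3, h4, h5, h6⟩ := exists_subspaces ((A : V →ₗ[K] V) - 1)
  set N : V →ₗ[K] V := (A : V →ₗ[K] V) - 1 with hN
  set M : W →ₗ[K] W := (X : W →ₗ[K] W) - 1 with hM
  obtain ⟨p, hp⟩ := exists_retraction (LinearMap.ker M)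
  refine ⟨finrank K E, finrank K C, finrank K U, h5, h6, ?_⟩
  have hfx : fx (X : W →ₗ[K] W) = finrank K (LinearMap.ker M) := rfl
  rw [hfx]
  let Φ : ((V × V) →ₗ[K] W) →ₗ[K] ((E →ₗ[K] LinearMap.ker M) × (C →ₗ[K] W)) ×
      ((U →ₗ[K] (W ⧸ LinearMap.ker M)) × (V →ₗ[K] LinearMap.ker M)) :=
    ((resComp (LinearMap.inl K V V ∘ₗ E.subtype) p).prod
      (resComp (LinearMap.inl K V V ∘ₗ C.subtype) LinearMap.id)).prod
    ((resComp (LinearMap.inl K V V ∘ₗ U.subtype) (LinearMap.ker M).mkQ).prod
      (resComp (LinearMap.inr K V V) p))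
  let S := LinearMap.ker
    ((step A X : ((V × V) →ₗ[K] W) →ₗ[K] ((V × V) →ₗ[K] W)) - 1)
  have hinj : Function.Injective (Φ ∘ₗ S.subtype) := by
    rw [← LinearMap.ker_eq_bot, eq_bot_iff]
    rintro ⟨f, hf⟩ hf0
    have hfix : ∀ x : V × V, X (f (A.symm x.1, x.2)) = f x := by
      intro x
      have : (step A X) f - f = 0 := by simpa [S] using hf
      rw [← step_apply, sub_eq_zero.1 this]
    rw [LinearMap.mem_ker] at hf0
    have q1 : ∀ x : E, p (f (x.1, 0)) = 0 := fun x =>
      congrArg (fun g => g x) (congrArg (fun t => t.1.1) hf0)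
    have q2 : ∀ x : C, f (x.1, 0) = 0 := fun x =>
      congrArg (fun g => g x) (congrArg (fun t => t.1.2) hf0)
    have q3 : ∀ x : U, (LinearMap.ker M).mkQ (f (x.1, 0)) = 0 := fun x =>
      congrArg (fun g => g x) (congrArg (fun t => t.2.1) hf0)
    have q4 : ∀ x : V, p (f (0, x)) = 0 := fun x =>
      congrArg (fun g => g x) (congrArg (fun t => t.2.2) hf0)
    have hA : ∀ x : V, X (f (x, 0)) = f (A x, 0) := by
      intro x
      have := hfix (A x, 0)
      simpa using this
    have hz : ∀ x : V, f (0, x) = 0 := by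
      intro x
      have hx : f (0, x) ∈ LinearMap.ker M := by
        have := hfix (0, x)
        simp only [map_zero] at this
        rw [LinearMap.mem_ker, hM]
        simp [this]
      have := hp ⟨_, hx⟩
      rw [q4 x] at this
      exact (congrArg Subtype.val this).symm
    have hg : f ∘ₗ LinearMap.inl K V V = 0 := by
      apply key_inj N M E C U m h2 h3
      · intro x
        simp only [LinearMap.comp_apply, LinearMap.inl_apply, hN, hM, LinearMap.sub_apply,
          LinearEquiv.coe_coe, Module.End.one_apply, hA]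
        rw [← map_sub]
        simp
      · intro x hx
        have hx' : f (x, 0) ∈ LinearMap.ker M := by
          have hAx : A x = x := by
            have := h1 x hx
            simpa [hN, sub_eq_zero] using this
          rw [LinearMap.mem_ker, hM]
          simp [hA, hAx]
        have := hp ⟨_, hx'⟩
        rw [q1 ⟨x, hx⟩] at this
        exact (congrArg Subtype.val this).symm
      · intro x hx
        exact q2 ⟨x, hx⟩
      · intro x hx
        obtain ⟨y, hy, rfl⟩ := h4 x hx
        have hy' : f (y, 0) ∈ LinearMap.ker M := by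
          have := q3 ⟨y, hy⟩
          rwa [Submodule.mkQ_apply, Submodule.Quotient.mk_eq_zero] at this
        rw [LinearMap.mem_ker] at hy'
        simp only [hM, LinearMap.sub_apply, LinearEquiv.coe_coe, Module.End.one_apply, hA] at hy'
        simp only [LinearMap.comp_apply, LinearMap.inl_apply, hN, LinearMap.sub_apply,
          LinearEquiv.coe_coe, Module.End.one_apply]
        rw [← hy', ← map_sub]
        simp
    rw [Submodule.mem_bot]
    ext x
    · have := congrArg (fun g => g x) hg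
      simpa using this
    · simpa using hz x
  have hle := LinearMap.finrank_le_finrank_of_injective hinj
  have hS : fx (step A X : ((V × V) →ₗ[K] W) →ₗ[K] ((V × V) →ₗ[K] W)) = finrank K S := rfl
  have hq := Submodule.finrank_quotient_add_finrank (LinearMap.ker M)
  simp only [Module.finrank_prod, Module.finrank_linearMap] at hle
  rw [hS, ← hq]
  rw [← hq] at hle
  nlinarith [hle]

end Pool.Agent.Q87.LinearSofic
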